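import Pool.Agent.H33.BtoDefs
import Pool.Agent.H33.Bto2

namespace Pool.Agent.Results.MP_a5aa7c_an.Q1

open MeasureTheory AddCircle Pool.Agent.H33.Bto

theorem result (V : Type) [NormedAddCommGroup V] [InnerProductSpace ℂ V] [CompleteSpace V]
    [FiniteDimensional ℂ V] (Φ : UnitAddCircle → Mat V) (hΦ : MemLp Φ ⊤ haarAddCircle)
    (T : Mat (Hardy V)) (hT : IsToep Φ T) (r : ℕ) (h : HypoRank T r) :
    ∃ ν l, IsBP ν l ∧ InE Φ (fun t => BP ν l (fourier 1 t)) ∧ degDet (BP ν l) = r := by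
  obtain ⟨h1, h2, h3⟩ := h
  obtain ⟨ν, l, a1, a2, a3⟩ := main Φ hΦ T hT h1 h2
  exact ⟨ν, l, a1, a2, a3.symm.trans h3⟩

end Pool.Agent.Results.MP_a5aa7c_an.Q1
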